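import Mathlib

set_option autoImplicit false

namespace Pool.Agent.Results.MP_128071_co.TwoMinusDiam

/-- a graceful labeling exists -/
def Graceful {W : Type} (G : SimpleGraph W) : Prop :=
  ∃ f : W → ℕ, Function.Injective f ∧ (∀ v, f v ≤ G.edgeSet.ncard) ∧
    ∀ u v x y, G.Adj u v → G.Adj x y → |(f u : ℤ) - f v| = |(f x : ℤ) - f y| → s(u, v) = s(x, y)

lemma tree_of {M : ℕ} (G : SimpleGraph (Fin (M + 1))) (hc : G.Connected)
    (h : ∀ u v x y, G.Adj u v → G.Adj x y → |(u.val : ℤ) - v.val| = |(x.val : ℤ) - y.val| →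
      s(u, v) = s(x, y)) : G.IsTree ∧ Graceful G ∧ G.edgeSet.ncard = M := by
  have h1 := hc.card_vert_le_card_edgeSet_add_one
  have h2 : G.edgeSet.ncard ≤ (Set.Icc (1 : ℤ) M).ncard := by
    refine Set.ncard_le_ncard_of_injOn
      (Sym2.lift ⟨fun u v : Fin (M + 1) => |(u.val : ℤ) - v.val|, fun u v => abs_sub_comm _ _⟩)
      (fun e he => ?_) (fun e he e' he' => ?_) (Set.finite_Icc _ _)
    · induction e using Sym2.ind with
      | h u v =>
        have h3 : u.val ≠ v.val := fun e => he.ne (Fin.ext e)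
        have := u.2
        have := v.2
        simp only [Sym2.lift_mk, Set.mem_Icc]
        rcases abs_cases ((u.val : ℤ) - v.val) with h | h <;> omega
    · induction e using Sym2.ind with
      | h u v =>
      induction e' using Sym2.ind with
      | h x y => exact h u v x y he he'
  rw [Set.ncard_eq_toFinset_card' (Set.Icc _ _)] at h2
  simp only [Nat.card_eq_fintype_card, Fintype.card_fin, Set.toFinset_Icc, Int.card_Icc,
    Nat.card_coe_set_eq] at h1 h2
  have h3 : G.edgeSet.ncard = M := by omega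
  refine ⟨SimpleGraph.isTree_iff_connected_and_card.2 ⟨hc, ?_⟩,
    ⟨Fin.val, Fin.val_injective, fun v => by have := v.2; omega, h⟩, h3⟩
  simp [h3]

lemma numeric (m : ℕ) (p d : ℕ → ℕ) (p1 : ∀ j, 1 ≤ j → j ≤ m → p j < j)
    (p2 : ∀ i j, 1 ≤ i → i ≤ j → j ≤ m → p i ≤ p j) (d0 : d 0 = 0)
    (d1 : ∀ j, 1 ≤ j → j ≤ m → d j = d (p j) + 1)
    (hl : ∀ j ≤ m, d j + 1 = d m → j ≤ p m) :
    ∃ (M : ℕ) (G : SimpleGraph (Fin (M + 1))) (e : ℕ → Fin (M + 1)), G.IsTree ∧ Graceful G ∧
      G.edgeSet.ncard + d m = 2 * m ∧ (∀ i ≤ m, ∀ j ≤ m, e i = e j → i = j) ∧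
      ∀ j, 1 ≤ j → j ≤ m → G.Adj (e j) (e (p j)) := by
  classical
  have d2 : ∀ j ≤ m, ∀ i ≤ j, d i ≤ d j := by
    intro j
    induction j using Nat.strong_induction_on with
    | _ j ih =>
    intro hj i hi
    rcases Nat.eq_zero_or_pos i with rfl | h
    · omega
    have := ih (p j) (p1 j (by omega) hj) (by have := p1 j (by omega) hj; omega) (p i)
      (p2 i j h hi hj)
    rw [d1 i h (by omega), d1 j (by omega) hj]; omega
  have d3 : ∀ j ≤ m, ∀ i ≤ j, d j + i ≤ d i + j := by
    intro j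
    induction j with
    | zero => intro _ i hi; obtain rfl : i = 0 := by omega
              rfl
    | succ j ih =>
      intro hj i hi
      rcases hi.eq_or_lt with rfl | h
      · rfl
      have := ih (by omega) i (by omega)
      have := d2 j (by omega) (p (j + 1)) (by have := p1 (j + 1) (by omega) hj; omega)
      have := d1 (j + 1) (by omega) hj
      omega
  let u : ℕ → ℕ := fun j => Nat.findGreatest (fun i => p i < j) m
  have u0 : ∀ j, u j ≤ m := fun j => Nat.findGreatest_le m
  have u1 : ∀ j i, 1 ≤ i → i ≤ m → (p i < j ↔ i ≤ u j) := fun j i h1 h2 =>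
    ⟨fun h => Nat.le_findGreatest (P := fun i => p i < j) h2 h, fun h => (p2 i _ h1 h (u0 j)).trans_lt
      (Nat.findGreatest_of_ne_zero (P := fun i => p i < j) rfl (by
        show u j ≠ 0
        omega))⟩
  have u2 : ∀ j, 1 ≤ j → j ≤ m → j ≤ u j := fun j h1 h2 => (u1 j j h1 h2).1 (p1 j h1 h2)
  have u3 : ∀ i j, 1 ≤ i → i ≤ j → j ≤ m → u i ≤ u j := fun i j h1 h2 h3 => by
    have := u2 i h1 (by omega)
    exact (u1 j _ (by omega) (u0 i)).1 (((u1 i _ (by omega) (u0 i)).2 le_rfl).trans_le h2)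
  clear_value u
  let ph : ℕ → ℕ → ℤ := fun s j => (j : ℤ) - ((d j + 1 + (d j + s) % 2) / 2 : ℕ)
  obtain ⟨P, hP⟩ : ∃ P : ℤ, P = ph 0 m := ⟨_, rfl⟩
  let L : ℕ → ℤ → ℤ := fun s x => if s % 2 = 0 then P - x else P + 1 + x
  have dm := d3 m le_rfl 0 (Nat.zero_le _)
  obtain ⟨M, hM⟩ : ∃ M, M + d m = 2 * m := ⟨2 * m - d m, by omega⟩
  let R : ℤ → ℤ → Prop := fun a b =>
    (∃ j, 1 ≤ j ∧ j ≤ m ∧ a = L (d j) (ph (d j) j) ∧ b = L (d (p j)) (ph (d (p j)) (p j))) ∨
    (∃ j, 1 ≤ j ∧ j ≤ m ∧ d (j - 1) = d j ∧ a = L (d j + 1) (ph (d j + 1) j) ∧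
      b = L (d j) (u j - ((d j + 1) / 2 : ℕ)))
  let G : SimpleGraph (Fin (M + 1)) := SimpleGraph.fromRel fun a b => R a.val b.val
  have rs : ∀ j, 1 ≤ j → j ≤ m →
      |L (d j) (ph (d j) j) - L (d (p j)) (ph (d (p j)) (p j))| = j + p j - d j + 1 := by
    intro j h1 h2
    have := d1 j h1 h2
    have := d3 j h2 0 (Nat.zero_le _)
    simp only [L, ph]
    split_ifs <;> rw [abs_eq (by omega)] <;> omega
  have rt : ∀ j, 1 ≤ j → j ≤ m →
      |L (d j + 1) (ph (d j + 1) j) - L (d j) (u j - ((d j + 1) / 2 : ℕ))| = j + u j - d j := by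
    intro j h1 h2
    have := d3 j h2 0 (Nat.zero_le _)
    simp only [L, ph]
    split_ifs <;> rw [abs_eq (by omega)] <;> omega
  have ss : ∀ i j, 1 ≤ i → i < j → j ≤ m → (i : ℤ) + p i - d i < j + p j - d j := by
    intro i j h1 h2 h3
    have := d3 (p j) (by have := p1 j (by omega) h3; omega) (p i) (p2 i j h1 h2.le h3)
    have := d1 i h1 (by omega)
    have := d1 j (by omega) h3
    omega
  have tt : ∀ i j, 1 ≤ i → i < j → j ≤ m → d (j - 1) = d j →
      (i : ℤ) + u i - d i < j + u j - d j := by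
    intro i j h1 h2 h3 h4
    have := d3 (j - 1) (by omega) i (by omega)
    have := u3 i j h1 h2.le h3
    omega
  have st : ∀ i j, 1 ≤ i → i ≤ m → 1 ≤ j → j ≤ m → d (j - 1) = d j →
      (i : ℤ) + p i - d i + 1 ≠ j + u j - d j := by
    intro i j h1 h2 h3 h4 h5
    have := d1 i h1 h2
    have := u1 j i h1 h2
    rcases lt_or_ge (p i) j with h | h
    · have := d3 (j - 1) (by omega) (p i) (by omega)
      omega
    · have := d3 (p i) (by have := p1 i h1 h2; omega) j h
      omega
  have RR : ∀ a b x y, R a b → R x y → |a - b| = |x - y| → a = x ∧ b = y := by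
    rintro a b x y (⟨i, a1, a2, rfl, rfl⟩ | ⟨i, a1, a2, a3, rfl, rfl⟩)
      (⟨j, b1, b2, rfl, rfl⟩ | ⟨j, b1, b2, b3, rfl, rfl⟩) h
    · rw [rs i a1 a2, rs j b1 b2] at h
      obtain rfl : i = j := by
        rcases lt_trichotomy i j with k | k | k
        · have := ss i j a1 k b2; omega
        · exact k
        · have := ss j i b1 k a2; omega
      exact ⟨rfl, rfl⟩
    · rw [rs i a1 a2, rt j b1 b2] at h
      exact absurd h (st i j a1 a2 b1 b2 b3)
    · rw [rt i a1 a2, rs j b1 b2] at h
      exact absurd h.symm (st j i b1 b2 a1 a2 a3)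
    · rw [rt i a1 a2, rt j b1 b2] at h
      obtain rfl : i = j := by
        rcases lt_trichotomy i j with k | k | k
        · have := tt i j a1 k b2 b3; omega
        · exact k
        · have := tt j i b1 k a2 a3; omega
      exact ⟨rfl, rfl⟩
  have phm : ∀ s j, j ≤ m → ph s j ≤ ph s m := fun s j hj => by
    have := d3 m le_rfl j hj
    have := d2 m le_rfl j hj
    simp only [ph]; omega
  have rng : ∀ s j, j ≤ m → 0 ≤ ph s j → ∃ a : Fin (M + 1), (a.val : ℤ) = L s (ph s j) := by
    intro s j hj h0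
    have h1 := phm s j hj
    have h2 : 0 ≤ L s (ph s j) ∧ L s (ph s j) ≤ M := by
      generalize ph s j = x at *
      simp only [L, ph] at *
      split_ifs <;> omega
    exact ⟨⟨(L s (ph s j)).toNat, by omega⟩, by simp [h2.1]⟩
  have ph0 : ∀ j ≤ m, 0 ≤ ph (d j) j := fun j hj => by
    have := d3 j hj 0 (Nat.zero_le _)
    simp only [ph]; omega
  have he : ∀ j, ∃ a : Fin (M + 1), j ≤ m → (a.val : ℤ) = L (d j) (ph (d j) j) := fun j => by
    by_cases hj : j ≤ m
    · exact (rng _ j hj (ph0 j hj)).imp fun a h _ => h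
    · exact ⟨0, fun h => absurd h hj⟩
  choose e he using he
  have adj : ∀ a b : Fin (M + 1), R a.val b.val → 0 < |(a.val : ℤ) - b.val| → G.Adj a b :=
    fun a b h h' => (SimpleGraph.fromRel_adj _ _ _).2 ⟨by rintro rfl; simp at h', Or.inl h⟩
  have ea : ∀ j, 1 ≤ j → j ≤ m → G.Adj (e j) (e (p j)) := fun j h1 h2 => by
    have h3 := he (p j) (by have := p1 j h1 h2; omega)
    refine adj _ _ (Or.inl ⟨j, h1, h2, he j h2, h3⟩) ?_
    rw [he j h2, h3, rs j h1 h2]
    have := d3 j h2 0 (Nat.zero_le _)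
    omega
  have c1 : ∀ j ≤ m, G.Reachable (e 0) (e j) := by
    intro j
    induction j using Nat.strong_induction_on with
    | _ j ih =>
    intro hj
    rcases Nat.eq_zero_or_pos j with rfl | h
    · rfl
    · exact (ih _ (p1 j h hj) (by have := p1 j h hj; omega)).trans (ea j h hj).symm.reachable
  have LL : ∀ s s' j, s % 2 = s' % 2 → L s (ph s j) = L s' (ph s' j) := fun s s' j h => by
    simp only [L, ph]
    split_ifs <;> omega
  have c2 : ∀ n j, j + n = m → ∀ s (a : Fin (M + 1)), 0 ≤ ph s j → (a.val : ℤ) = L s (ph s j) →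
      G.Reachable (e 0) a := by
    intro n
    induction n using Nat.strong_induction_on with
    | _ n ih =>
    intro j hj s a h0 ha
    have T : ∀ i ≤ m, ∀ b : Fin (M + 1), (b.val : ℤ) = L (d i) (ph (d i) i) →
        G.Reachable (e 0) b := fun i hi b hb => by
      rw [show b = e i from Fin.ext (by have := he i hi; omega)]; exact c1 i hi
    by_cases h1 : s % 2 = d j % 2
    · exact T j (by omega) a (ha.trans (LL _ _ j h1))
    have h2 : 1 ≤ j := by
      rcases Nat.eq_zero_or_pos j with rfl | h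
      · simp only [ph, d0] at h0 h1; omega
      · exact h
    have k1 := d2 j (by omega) (j - 1) (by omega)
    have k2 := d3 j (by omega) (j - 1) (by omega)
    by_cases h3 : d (j - 1) = d j
    swap
    · refine T (j - 1) (by omega) a (ha.trans ?_)
      simp only [L, ph]
      split_ifs <;> omega
    have k3 := u2 j h2 (by omega)
    have k4 := d2 (u j) (u0 j) j k3
    have k5 := d1 (u j) (by omega) (u0 j)
    have k6 := (u1 j (u j) (by omega) (u0 j)).2 le_rfl
    have k7 := d2 j (by omega) _ k6.le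
    have k8 := d3 j (by omega) 0 (Nat.zero_le _)
    have fin : ∀ b : Fin (M + 1), (b.val : ℤ) = L (d j) (u j - ((d j + 1) / 2 : ℕ)) →
        G.Reachable (e 0) b → G.Reachable (e 0) a := fun b hb h => by
      have h4 := ha.trans (LL s (d j + 1) j (by omega))
      refine h.trans (adj a b (Or.inr ⟨j, h2, by omega, h3, h4, hb⟩) ?_).symm.reachable
      rw [h4, hb, rt j h2 (by omega)]; omega
    by_cases h4 : d (u j) = d j
    · refine fin (e (u j)) ((he _ (u0 j)).trans ?_) (c1 _ (u0 j))
      simp only [L, ph, h4]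
      split_ifs <;> omega
    · have k9 : u j < m := lt_of_le_of_ne (u0 j) fun h => by
        rw [h] at k5 k6 k7 k4 h4
        have := hl j (by omega) (by omega)
        omega
      have k10 := d2 (u j + 1) k9 (u j) (by omega)
      have k11 := d3 (u j + 1) k9 (u j) (by omega)
      have k12 : ph (d j) (u j + 1) = u j - ((d j + 1) / 2 : ℕ) := by simp only [ph]; omega
      obtain ⟨b, hb⟩ := rng (d j) (u j + 1) k9 (by omega)
      exact fin b (by rw [hb, k12]) (ih (m - (u j + 1)) (by omega) (u j + 1) (by omega) _ b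
        (by omega) hb)
  have ivt : ∀ s (x : ℤ), 0 ≤ x → ∀ j ≤ m, x ≤ ph s j → ∃ i ≤ m, ph s i = x := by
    intro s x hx j
    induction j with
    | zero => exact fun hj h => ⟨0, hj, by simp only [ph, d0] at h ⊢; omega⟩
    | succ j ih =>
      intro hj h
      rcases h.eq_or_lt with h | h
      · exact ⟨_, hj, h.symm⟩
      refine ih (by omega) ?_
      have := d2 (j + 1) hj j (by omega)
      simp only [ph] at h ⊢
      omega
  have hc : G.Connected := by
    rw [SimpleGraph.connected_iff_exists_forall_reachable]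
    refine ⟨e 0, fun a => ?_⟩
    have := a.2
    by_cases h : (a.val : ℤ) ≤ P
    · obtain ⟨i, hi, h'⟩ := ivt 0 (P - a.val) (by omega) m le_rfl (by omega)
      exact c2 (m - i) i (by omega) 0 a (by omega) (by simp [L, h'])
    · obtain ⟨i, hi, h'⟩ := ivt 1 (a.val - P - 1) (by omega) m le_rfl (by
        simp only [ph] at hP ⊢; omega)
      exact c2 (m - i) i (by omega) 1 a (by omega) (by simp [L, h'])
  obtain ⟨t1, t2, t3⟩ := tree_of G hc fun a b x y h1 h2 h => by
    rw [Sym2.eq_iff]
    simp only [Fin.ext_iff]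
    rcases ((SimpleGraph.fromRel_adj _ _ _).1 h1).2 with h1 | h1 <;>
      rcases ((SimpleGraph.fromRel_adj _ _ _).1 h2).2 with h2 | h2
    · have := RR _ _ _ _ h1 h2 h; omega
    · have := RR _ _ _ _ h1 h2 (h.trans (abs_sub_comm _ _)); omega
    · have := RR _ _ _ _ h1 h2 ((abs_sub_comm _ _).trans h); omega
    · have := RR _ _ _ _ h1 h2 ((abs_sub_comm _ _).trans (h.trans (abs_sub_comm _ _))); omega
  refine ⟨M, G, e, t1, t2, by omega, fun i hi j hj h => ?_, ea⟩
  have h1 := (he i hi).symm.trans ((congrArg (fun a : Fin (M + 1) => (a.val : ℤ)) h).trans (he j hj))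
  have := ph0 i hi
  have := ph0 j hj
  rcases le_total i j with k | k
  · have := d2 j hj i k
    have := d3 j hj i k
    simp only [L, ph] at *
    split_ifs at h1 <;> omega
  · have := d2 i hi j k
    have := d3 i hi j k
    simp only [L, ph] at *
    split_ifs at h1 <;> omega

lemma rooted {V : Type} {T : SimpleGraph V} (hT : T.IsTree) (r : V) : ∃ par : V → V,
    (∀ a b, T.Adj a b → (a ≠ r ∧ par a = b) ∨ (b ≠ r ∧ par b = a)) ∧
    ∀ s, s ≠ r → T.dist r s = T.dist r (par s) + 1 := by
  classical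
  have key : ∀ v a (h : T.Adj v a), T.dist r a < T.dist r v →
      ∃ p : T.Walk r a, (p.concat h.symm).IsPath := by
    intro v a h hl
    obtain ⟨p, hp⟩ := hT.connected.exists_walk_length_eq_dist r a
    refine ⟨p, SimpleGraph.Walk.isPath_of_length_eq_dist _ ?_⟩
    have := hT.dist_eq_dist_add_one_of_adj r h
    rw [SimpleGraph.Walk.length_concat, hp]; omega
  have uniq : ∀ v a b, T.Adj v a → T.Adj v b → T.dist r a < T.dist r v →
      T.dist r b < T.dist r v → a = b := by
    intro v a b h1 h2 h3 h4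
    obtain ⟨p, hp⟩ := key v a h1 h3
    obtain ⟨q, hq⟩ := key v b h2 h4
    have := congrArg (fun w : T.Path r v => w.1.penultimate)
      ((hT.isAcyclic.subsingleton_path r v).elim ⟨_, hp⟩ ⟨_, hq⟩)
    simpa using this
  have ex : ∀ s, ∃ a, s ≠ r → T.Adj s a ∧ T.dist r a < T.dist r s := by
    intro s
    obtain ⟨p, hp⟩ := hT.connected.exists_walk_length_eq_dist s r
    cases p with
    | nil => exact ⟨r, fun h => absurd rfl h⟩
    | cons h q =>
      refine ⟨_, fun _ => ⟨h, ?_⟩⟩
      have := SimpleGraph.dist_le q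
      rw [SimpleGraph.Walk.length_cons] at hp
      rw [SimpleGraph.dist_comm, SimpleGraph.dist_comm (u := r)]
      omega
  choose par hp using ex
  refine ⟨par, fun a b h => ?_, fun s h => ?_⟩
  · have k : ∀ a b, T.Adj a b → T.dist r b < T.dist r a → a ≠ r ∧ par a = b := fun a b h h' => by
      have ha : a ≠ r := by rintro rfl; simp at h'
      exact ⟨ha, uniq a _ _ (hp a ha).1 h (hp a ha).2 h'⟩
    rcases hT.dist_eq_dist_add_one_of_adj r h with e | e
    · exact Or.inl (k a b h (by omega))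
    · exact Or.inr (k b a h.symm (by omega))
  · have := hT.dist_eq_dist_add_one_of_adj r (hp s h).1
    have := (hp s h).2
    omega

lemma code {V : Type} [Fintype V] (r w : V) (par : V → V) (d : V → ℕ) (d0 : ∀ v, d v = 0 ↔ v = r)
    (d1 : ∀ s, s ≠ r → d s = d (par s) + 1) : ∃ c : V → ℕ, Function.Injective c ∧ c r = 0 ∧
      (∀ v, v ≠ r → c (par v) < c v) ∧
      (∀ u v, u ≠ r → v ≠ r → c u ≤ c v → c (par u) ≤ c (par v)) ∧
      (∀ v, d v ≤ d w → c v ≤ c w) ∧ ∀ v, w ≠ r → d v ≤ d (par w) → c v ≤ c (par w) := by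
  classical
  obtain ⟨N, hN⟩ : ∃ N, N = Fintype.card V + 1 := ⟨_, rfl⟩
  let A : V → Prop := fun v => ∃ n, par^[n] w = v ∧ d v + n = d w
  let i : V → ℕ := fun v => if A v then N else (Fintype.equivFin V v).val + 1
  have i1 : ∀ v, 1 ≤ i v ∧ i v ≤ N := fun v => by
    have := (Fintype.equivFin V v).2
    simp only [i]; split_ifs <;> omega
  have i2 : ∀ u v, d u = d v → i u = i v → u = v := fun u v h h' => by
    have := (Fintype.equivFin V v).2
    have := (Fintype.equivFin V u).2
    simp only [i] at h'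
    split_ifs at h' with h1 h2 h2
    · obtain ⟨n, rfl, a⟩ := h1
      obtain ⟨k, rfl, b⟩ := h2
      rw [show n = k by omega]
    · omega
    · omega
    · exact (Fintype.equivFin V).injective (Fin.ext (by omega))
  let cd : ℕ → V → ℕ := fun n => Nat.rec (fun _ => 0) (fun _ f v => i v + N * f (par v)) n
  let c : V → ℕ := fun v => cd (d v) v
  have c0 : c r = 0 := by simp only [c, (d0 r).2 rfl]; rfl
  have c1 : ∀ v, v ≠ r → c v = i v + N * c (par v) := fun v h => by
    simp only [c]; rw [d1 v h]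
  clear_value c
  have c2 : ∀ u v, u ≠ r → v ≠ r → c u ≤ c v → c (par u) ≤ c (par v) := fun u v hu hv h => by
    by_contra H
    have := Nat.mul_le_mul_left N (Nat.succ_le_of_lt (not_le.1 H))
    have := c1 u hu
    have := c1 v hv
    have := i1 u
    have := i1 v
    rw [Nat.mul_succ] at *
    omega
  have c3 : ∀ n a, d a = n → A a → ∀ v, d v ≤ d a → c v ≤ c a := by
    intro n
    induction n with
    | zero => intro a h _ v hv; rw [(d0 v).1 (by omega), c0]; omega
    | succ n ih =>
      intro a h ha v hv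
      by_cases h1 : v = r
      · rw [h1, c0]; omega
      have h2 : a ≠ r := fun e => by have := (d0 a).2 e; omega
      have e1 := d1 a h2
      have e2 := d1 v h1
      have h3 := ih (par a) (by omega) (by
        obtain ⟨k, b1, b2⟩ := ha
        exact ⟨k + 1, by rw [Function.iterate_succ_apply', b1], by omega⟩) (par v) (by omega)
      have := Nat.mul_le_mul_left N h3
      have := i1 v
      rw [c1 v h1, c1 a h2, show i a = N from if_pos ha]
      omega
  have c4 : ∀ n u, d u = n → ∀ v, c u = c v → u = v := by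
    intro n
    induction n with
    | zero =>
      intro u h v hv
      by_contra H
      rw [(d0 u).1 h] at hv H
      have := c1 v (Ne.symm H)
      have := i1 v
      omega
    | succ n ih =>
      intro u h v hv
      have h2 : u ≠ r := fun e => by have := (d0 u).2 e; omega
      have e1 := d1 u h2
      have e2 := c1 u h2
      have h1 : v ≠ r := by rintro rfl; have := i1 u; omega
      have h3 := ih (par u) (by omega) (par v) ((c2 u v h2 h1 hv.le).antisymm (c2 v u h1 h2 hv.ge))
      have e3 := d1 v h1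
      have e4 := c1 v h1
      rw [← h3] at e3 e4
      exact i2 u v (by omega) (by omega)
  refine ⟨c, fun u v => c4 _ u rfl v, c0, fun v h => ?_, c2, c3 _ w rfl ⟨0, rfl, rfl⟩,
    fun v h => c3 _ _ rfl ⟨1, rfl, (d1 w h).symm⟩ v⟩
  have := Nat.le_mul_of_pos_left (c (par v)) (show 0 < N by omega)
  have := i1 v
  rw [c1 v h]; omega

theorem result (V : Type) [Fintype V] (T : SimpleGraph V) (hT : T.IsTree) :
    ∃ (n : ℕ) (T' : SimpleGraph (Fin n)), T'.IsTree ∧ Graceful T' ∧ T.IsContained T' ∧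
      T'.edgeSet.ncard + T.diam ≤ 2 * T.edgeSet.ncard := by
  classical
  have := hT.connected.nonempty
  obtain ⟨r, w0, hd⟩ := T.exists_dist_eq_diam
  obtain ⟨w, -, hw⟩ := Finset.univ.exists_max_image (T.dist r) Finset.univ_nonempty
  obtain ⟨par, q1, q2⟩ := rooted hT r
  obtain ⟨c, c0, c1, c2, c3, c4, c5⟩ := code r w par (T.dist r)
    (fun v => by rw [hT.connected.dist_eq_zero_iff, eq_comm]) q2
  have hm : Fintype.card V = T.edgeSet.ncard + 1 := by
    have := (SimpleGraph.isTree_iff_connected_and_card.1 hT).2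
    rw [Nat.card_coe_set_eq, Nat.card_eq_fintype_card] at this
    exact this.symm
  generalize T.edgeSet.ncard = m at hm ⊢
  let _ : LinearOrder V := LinearOrder.lift' c c0
  let E := monoEquivOfFin V hm
  have le : ∀ u v, (E.symm u).val ≤ (E.symm v).val ↔ c u ≤ c v := fun u v =>
    E.symm.le_iff_le
  let F : ℕ → V := fun j => E (Fin.ofNat (m + 1) j)
  have F1 : ∀ j ≤ m, (E.symm (F j)).val = j := fun j hj => by
    simp [F, Nat.mod_eq_of_lt (Nat.lt_succ_of_le hj)]
  have F2 : ∀ v, F (E.symm v).val = v := fun v => by simp [F]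
  have F3 : ∀ v, (E.symm v).val ≤ m := fun v => Nat.le_of_lt_succ (E.symm v).2
  have r0 : (E.symm r).val = 0 := by
    have := (le r (F 0)).2 (by omega)
    rw [F1 0 (Nat.zero_le _)] at this; omega
  have wm : (E.symm w).val = m := by
    have := (le (F m) w).2 (c4 _ (hw _ (Finset.mem_univ _)))
    have := F1 m le_rfl
    have := F3 w
    omega
  have Fm : F m = w := by rw [← wm, F2]
  have nr : ∀ j, 1 ≤ j → j ≤ m → F j ≠ r := fun j h1 h2 h => by
    have := F1 j h2
    rw [h] at this; omega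
  obtain ⟨M, G, e, t1, t2, t3, t4, t5⟩ := numeric m (fun j => (E.symm (par (F j))).val)
    (fun j => T.dist r (F j))
    (fun j h1 h2 => by
      have := (le (F j) (par (F j))).not.2 (not_le.2 (c2 _ (nr j h1 h2)))
      have := F1 j h2
      omega)
    (fun i j h1 h2 h3 => (le _ _).2 (c3 _ _ (nr i h1 (by omega)) (nr j (by omega) h3)
      ((le _ _).1 (by rw [F1 i (by omega), F1 j h3]; exact h2))))
    (by have := F2 r; rw [r0] at this; simp [this])
    (fun j h1 h2 => by rw [F2]; exact q2 _ (nr j h1 h2))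
    (fun j hj h => by
      rw [Fm] at h ⊢
      have h1 : w ≠ r := by rintro rfl; simp at h
      have := q2 w h1
      have := (le _ _).2 (c5 (F j) h1 (by omega))
      rwa [F1 j hj] at this)
  refine ⟨M + 1, G, t1, t2, ⟨⟨⟨fun v => e (E.symm v).val, fun {a b} h => ?_⟩, fun a b h => ?_⟩⟩, ?_⟩
  · have k : ∀ a, a ≠ r → G.Adj (e (E.symm a).val) (e (E.symm (par a)).val) := fun a h => by
      have := t5 (E.symm a).val (by
        by_contra H
        exact h (E.symm.injective (Fin.ext (by omega)))) (F3 a)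
      rwa [F2] at this
    rcases q1 a b h with ⟨h', rfl⟩ | ⟨h', rfl⟩
    · exact k a h'
    · exact (k b h').symm
  · exact E.symm.injective (Fin.ext (t4 _ (F3 a) _ (F3 b) h))
  · rw [Fm] at t3
    have := hw w0 (Finset.mem_univ _)
    omega

end Pool.Agent.Results.MP_128071_co.TwoMinusDiam
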